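import Pool.Agent.KS6_69.FCG.Main

/-!
# FC-groups with `G / Z(G)` embeddable in a direct product of finite groups

Let `G` be an FC-group whose derived subgroup `G'` is a subdirect product, in the restricted direct product,
of groups with finite centre. Then `G / Z(G)` embeds in a restricted direct product of
finite groups. In the question the factors of `G'` are finite.
-/

set_option autoImplicit false
universe u

open scoped commutatorElement

namespace Pool.Agent.Results.MP_b2231e_al.FiniteCentres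

open Pool.Agent.KS6_69.FCG

/-- The group `A` embeds in a restricted direct product of finite groups. -/
def IsSDF (A : Type u) [Group A] : Prop :=
  ∃ (ι : Type u) (F : ι → Type u) (_ : ∀ i, Group (F i)) (_ : ∀ i, Finite (F i))
    (f : A →* ((i : ι) → F i)), Function.Injective f ∧ ∀ x, {i : ι | f x i ≠ 1}.Finite

variable {G : Type u} [Group G]

lemma comm_mem' (a b : G) : ⁅a, b⁆ ∈ commutator G :=
  Subgroup.commutator_mem_commutator (Subgroup.mem_top _) (Subgroup.mem_top _)

lemma mem_center_quot (N : Subgroup G) [N.Normal] (g : G) :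
    (g : G ⧸ N) ∈ Subgroup.center (G ⧸ N) ↔ ∀ x : G, ⁅x, g⁆ ∈ N := by
  rw [Subgroup.mem_center_iff, QuotientGroup.forall_mk]
  refine forall_congr' fun x => ?_
  rw [← commutatorElement_eq_one_iff_mul_comm, ← QuotientGroup.eq_one_iff]
  rfl

lemma mem_commutator_quot (N : Subgroup G) [N.Normal] (t : G ⧸ N) (ht : t ∈ commutator (G ⧸ N)) :
    ∃ y : commutator G, (y.1 : G ⧸ N) = t := by
  rw [commutator_def (G ⧸ N), ← Subgroup.map_top_of_surjective _ (QuotientGroup.mk'_surjective N),
    ← Subgroup.map_commutator] at ht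
  obtain ⟨y, hy, e⟩ := ht
  exact ⟨⟨y, hy⟩, e⟩

/-- A criterion in terms of normal subgroups of `G`. -/
lemma criterion (hFC : FC G) {ι : Type u} (N : ι → Subgroup G) (hN : ∀ i, (N i).Normal)
    (h1 : ∀ y ∈ commutator G, {i | y ∉ N i}.Finite)
    (h2 : ∀ y ∈ commutator G, (∀ i, y ∈ N i) → y = 1)
    (h3 : ∀ i, Set.Finite {t | t ∈ Subgroup.center (G ⧸ N i) ∧ t ∈ commutator (G ⧸ N i)}) :
    PF G (Subgroup.center G) := by
  choose κ U u1 u2 u3 using fun i => thmA (hFC.quot (N i)) (h3 i)
  have hpf : ∀ g : G, {i | (g : G ⧸ N i) ∉ Subgroup.center (G ⧸ N i)}.Finite := by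
    intro g
    refine ((hFC.comm g).biUnion (t := fun y => {i | y ∉ N i}) ?_).subset fun i hi => ?_
    · rintro _ ⟨x, rfl⟩
      exact h1 _ (comm_mem' x g)
    · by_contra hc
      refine hi ((mem_center_quot (N i) g).2 fun x => ?_)
      by_contra hne
      exact hc (Set.mem_iUnion₂.2 ⟨⁅x, g⁆, ⟨x, rfl⟩, hne⟩)
  refine ⟨Σ i, κ i, fun p => (U p.1 p.2).comap (QuotientGroup.mk' _), fun p => ?_, fun g => ?_,
    fun g => ⟨fun h => ?_, fun h p => ?_⟩⟩
  · have a1 := (u1 p.1 p.2).1
    have a2 := (u1 p.1 p.2).2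
    exact ⟨inferInstance, ⟨by
      rw [Subgroup.index_comap_of_surjective _ (QuotientGroup.mk'_surjective _)]
      exact Subgroup.FiniteIndex.index_ne_zero⟩⟩
  · refine ((hpf g).biUnion fun i _ => (u2 i g).image (Sigma.mk i)).subset ?_
    rintro ⟨i, j⟩ hp
    exact Set.mem_biUnion (x := i) (fun h => hp ((u3 i g).2 h j)) ⟨j, hp, rfl⟩
  · refine Subgroup.mem_center_iff.2 fun x => commutatorElement_eq_one_iff_mul_comm.1 ?_
    exact h2 _ (comm_mem' x g) fun i =>
      (mem_center_quot (N i) g).1 ((u3 i g).1 fun j => h ⟨i, j⟩) x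
  · refine (u3 p.1 g).2 ((mem_center_quot _ g).2 fun x => ?_) p.2
    rw [commutatorElement_eq_one_iff_mul_comm.2 (Subgroup.mem_center_iff.1 h x)]
    exact Subgroup.one_mem _

/-- The same with normal subgroups of `G'` with quotients whose centres are finite. -/
lemma criterion' (hFC : FC G) {ι : Type u} (K : ι → Subgroup (commutator G))
    (hK : ∀ i, (K i).Normal) (h1 : ∀ y, {i | y ∉ K i}.Finite) (h2 : ∀ y, (∀ i, y ∈ K i) → y = 1)
    (h3 : ∀ i, Finite (Subgroup.center (commutator G ⧸ K i))) : PF G (Subgroup.center G) := by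
  have hN : ∀ i x, x ∈ ((K i).map (commutator G).subtype).normalCore ↔
      ∀ h : G, ∃ hx : h * x * h⁻¹ ∈ commutator G, (⟨_, hx⟩ : commutator G) ∈ K i := by
    intro i x
    refine forall_congr' fun h => ⟨?_, ?_⟩
    · rintro ⟨y, hy, e⟩
      refine ⟨e ▸ y.2, ?_⟩
      have : y = ⟨h * x * h⁻¹, e ▸ y.2⟩ := Subtype.ext e
      rw [← this]
      exact hy
    · rintro ⟨hx, e⟩
      exact ⟨⟨_, hx⟩, e, rfl⟩
  refine criterion hFC (fun i => ((K i).map (commutator G).subtype).normalCore)
    (fun i => inferInstance) (fun y hy => ?_) (fun y hy h => ?_) fun i => ?_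
  · have f1 : ((Subtype.val : commutator G → G) ⁻¹' {h : G | IsConj y h}).Finite :=
      (hFC y).preimage Subtype.val_injective.injOn
    refine (f1.biUnion (t := fun z => {i | z ∉ K i}) fun z _ => h1 z).subset fun i hi => ?_
    by_contra hc
    refine hi ((hN i y).2 fun h => ⟨Subgroup.Normal.conj_mem inferInstance _ hy h, ?_⟩)
    by_contra hne
    exact hc (Set.mem_iUnion₂.2 ⟨⟨h * y * h⁻¹, _⟩, isConj_iff.2 ⟨h, rfl⟩, hne⟩)
  · have : (⟨y, hy⟩ : commutator G) = 1 := h2 _ fun i => by
      obtain ⟨a1, a2⟩ := (hN i y).1 (h i) 1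
      have e : (⟨1 * y * 1⁻¹, a1⟩ : commutator G) = ⟨y, hy⟩ := Subtype.ext (by simp)
      rwa [e] at a2
    exact congrArg Subtype.val this
  · let N := ((K i).map (commutator G).subtype).normalCore
    have hcen : ∀ y : commutator G, (y.1 : G ⧸ N) ∈ Subgroup.center (G ⧸ N) → ∀ h : G,
        ∃ a : ⁅h, y.1⁆ ∈ commutator G, (⟨_, a⟩ : commutator G) ∈ K i := by
      intro y hy h
      obtain ⟨a1, a2⟩ := (hN i _).1 ((mem_center_quot N y.1).1 hy h) 1
      refine ⟨comm_mem' _ _, ?_⟩
      have e : (⟨1 * ⁅h, y.1⁆ * 1⁻¹, a1⟩ : commutator G) = ⟨⁅h, y.1⁆, comm_mem' _ _⟩ :=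
        Subtype.ext (by simp)
      rwa [e] at a2
    have hmem : ∀ y : commutator G, (y.1 : G ⧸ N) ∈ Subgroup.center (G ⧸ N) →
        (y : commutator G ⧸ K i) ∈ Subgroup.center (commutator G ⧸ K i) := by
      intro y hy
      have := hK i
      refine (mem_center_quot (K i) y).2 fun x => ?_
      obtain ⟨a1, a2⟩ := hcen y hy x.1
      exact a2
    have hinj : ∀ y y' : commutator G, (y.1 : G ⧸ N) ∈ Subgroup.center (G ⧸ N) →
        (y'.1 : G ⧸ N) ∈ Subgroup.center (G ⧸ N) →
        (y : commutator G ⧸ K i) = (y' : commutator G ⧸ K i) → (y.1 : G ⧸ N) = (y'.1 : G ⧸ N) := by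
      intro y y' hy hy' e
      have e1 : y⁻¹ * y' ∈ K i := QuotientGroup.eq.1 e
      have e2 : ((y⁻¹ * y' : commutator G).1 : G ⧸ N) ∈ Subgroup.center (G ⧸ N) :=
        Subgroup.mul_mem _ (Subgroup.inv_mem _ hy) hy'
      rw [QuotientGroup.eq]
      show (y⁻¹ * y' : commutator G).1 ∈ N
      generalize y⁻¹ * y' = z at e1 e2
      rw [hN]
      intro h
      obtain ⟨a1, a2⟩ := hcen z e2 h
      refine ⟨Subgroup.Normal.conj_mem inferInstance _ z.2 h, ?_⟩
      have : (⟨h * z * h⁻¹, Subgroup.Normal.conj_mem inferInstance _ z.2 h⟩ : commutator G) =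
          ⟨_, a1⟩ * z := Subtype.ext (by simp [commutatorElement_def])
      rw [this]
      exact (K i).mul_mem a2 e1
    have hs : ∀ t : {t | t ∈ Subgroup.center (G ⧸ N) ∧ t ∈ commutator (G ⧸ N)},
        ∃ y : commutator G, (y.1 : G ⧸ N) = t := fun t => mem_commutator_quot N t.1 t.2.2
    choose s hs using hs
    have hsc : ∀ t, ((s t).1 : G ⧸ N) ∈ Subgroup.center (G ⧸ N) := fun t => by
      rw [hs]; exact t.2.1
    have := h3 i
    refine Set.finite_coe_iff.1 (Finite.of_injective
      (fun t => (⟨_, hmem (s t) (hsc t)⟩ : Subgroup.center (commutator G ⧸ K i))) fun t t' e => ?_)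
    have := hinj _ _ (hsc t) (hsc t') (congrArg Subtype.val e)
    rw [hs, hs] at this
    exact Subtype.ext this

lemma isSDF_of_pf (h : PF G (Subgroup.center G)) : IsSDF (G ⧸ Subgroup.center G) := h.emb

/-- Let `G` be an FC-group. Then `G ⧸ Z(G)` embeds in a restricted direct product of finite groups if one
of the following holds:

* `G'` embeds in a restricted direct product of finite groups (this is the question);
* (more generally) there is a family of normal subgroups `K i` of `G'` with trivial intersection such that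
  each element of `G'` lies in all but finitely many `K i` and each `G' ⧸ K i` has finite
  centre; for example, the centre of `G'` is finite;
* (more generally) there is a family of normal subgroups `N i` of `G` such that each element of `G'` lies in all
  but finitely many `N i`, `G' ∩ ⋂ N i = 1`, and the intersection of the centre and the derived
  subgroup of `G ⧸ N i` is finite for each `i`. -/
theorem result (G : Type u) [Group G] (hFC : ∀ g : G, {h : G | IsConj g h}.Finite) :
    (IsSDF (commutator G) → IsSDF (G ⧸ Subgroup.center G)) ∧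
    ((∃ (ι : Type u) (K : ι → Subgroup (commutator G)) (_ : ∀ i, (K i).Normal),
        (∀ y, {i | y ∉ K i}.Finite) ∧ (⨅ i, K i = ⊥) ∧
          ∀ i, Finite (Subgroup.center (commutator G ⧸ K i))) →
      IsSDF (G ⧸ Subgroup.center G)) ∧
    ((∃ (ι : Type u) (N : ι → Subgroup G) (_ : ∀ i, (N i).Normal),
        (∀ y ∈ commutator G, {i | y ∉ N i}.Finite) ∧ (commutator G ⊓ ⨅ i, N i = ⊥) ∧
          ∀ i, Finite ↥(Subgroup.center (G ⧸ N i) ⊓ commutator (G ⧸ N i))) →
      IsSDF (G ⧸ Subgroup.center G)) := by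
  refine ⟨?_, ?_, ?_⟩
  · rintro ⟨ι, F, _, _, f, hf, hfin⟩
    refine isSDF_of_pf (criterion' hFC (fun i => ((Pi.evalMonoidHom F i).comp f).ker)
      (fun i => inferInstance) (fun y => hfin y) (fun y h => hf ?_) fun i => ?_)
    · rw [map_one]
      funext i
      exact h i
    · have : Finite (commutator G ⧸ ((Pi.evalMonoidHom F i).comp f).ker) :=
        Finite.of_injective _ (QuotientGroup.kerLift_injective ((Pi.evalMonoidHom F i).comp f))
      infer_instance
  · rintro ⟨ι, K, hK, h1, h2, h3⟩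
    refine isSDF_of_pf (criterion' hFC K hK h1 (fun y hy => ?_) h3)
    have : y ∈ ⨅ i, K i := Subgroup.mem_iInf.2 hy
    rwa [h2, Subgroup.mem_bot] at this
  · rintro ⟨ι, N, hN, h1, h2, h3⟩
    refine isSDF_of_pf (criterion hFC N hN h1 (fun y hy h => ?_) fun i => ?_)
    · have : y ∈ commutator G ⊓ ⨅ i, N i := ⟨hy, Subgroup.mem_iInf.2 h⟩
      rwa [h2, Subgroup.mem_bot] at this
    · have := h3 i
      exact Set.toFinite ((Subgroup.center (G ⧸ N i) ⊓ commutator (G ⧸ N i) :
        Subgroup (G ⧸ N i)) : Set (G ⧸ N i))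

end Pool.Agent.Results.MP_b2231e_al.FiniteCentres
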